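import Mathlib
import Pool.Agent.Lib.Mil.V.Thm
import Pool.Agent.Lib.Mil.W.ExE

/-!
# Rothberger sets in the Miller model

The countable support iteration of Miller forcing of length `(2^ℵ₀)⁺` (`= ω₂` under CH) forces that every
Rothberger set `X ⊆ P(ω)` has cardinality at most `ω₁`.

Definitions: `MNm`, `Itm` (the iteration) in `Lib/Mil/W/Def.lean`; `RP` (the complete Boolean algebra of the
regular open sets of a forcing notion) in `Lib/MP_11349d_lc/P1/RP.lean`; `BSet`, `bEq`, `bMem`, `Ult`, `Ult.E`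
(the Boolean-valued universe and its quotients by ultrafilters) in `Lib/BVM/BSet.lean`, `Lib/BVM/Model.lean`;
`Fm`, `sat`, `IsZFC` in `Lib/BVM/FmDef.lean`, `Lib/BVM/ZFCDef.lean`; `IsOpenS`, `IsRoth`, `RothSmall` in
`Lib/Mil/V/St.lean`; `Sub`, `Rel`, `IsOmega`, `IsOmega1`, `Onto` in `Lib/MP_11349d_lc/Stmt.lean`.
-/

set_option autoImplicit false

namespace Pool.Agent.Results.MP_97ce32_lc.RothbergerMiller

open Cardinal Pool.Agent.Lib.BVM Pool.Agent.BPF Pool.Agent.Mil

/-- Let `I` be a well order of type `(2^ℵ₀)⁺`. Then there is a countable support iteration of Miller forcing along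
`I`, and for every such iteration `P`, in all the quotients of the Boolean-valued universe of `P` by ultrafilters
the axioms of ZFC hold and every Rothberger set has cardinality at most `ω₁`. -/
theorem result (I : Type) [LinearOrder I] [WellFoundedLT I]
    (hI : Ordinal.type (fun a b : I => a < b) = (Order.succ (𝔠 : Cardinal.{0})).ord) :
    ((𝔠 : Cardinal.{0}) = ℵ₁ → Ordinal.type (fun a b : I => a < b) = Ordinal.omega 2) ∧
      Nonempty (Itm I) ∧
      ∀ P : Itm I, Nonempty (Ult (RP (P.P ⊤))) ∧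
        ∀ U : Ult (RP (P.P ⊤)), IsZFC U.E ∧ RothSmall U.E := by
  refine ⟨fun h => ?_, exists_itm I, fun P => ⟨?_, fun U => miller_roth hI P U⟩⟩
  · rw [hI, h, Cardinal.succ_aleph, Cardinal.ord_aleph]
    congr 1
    norm_num
  · obtain ⟨D, -, h2, -, -⟩ := mil_dense_RP P
    obtain ⟨U, -⟩ := exists_ult (h2 1)
    exact ⟨U⟩

end Pool.Agent.Results.MP_97ce32_lc.RothbergerMiller
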